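import Pool.Agent.Q204.RA.Card

set_option autoImplicit false

/-!
# First-order characterization of the relation algebras of `ℤ_p`-sets

Relation algebras in Tarski's sense (`RelAlg`), their signature `LRA`, the relation algebra
`Rel G A` of all compatible relations on a `G`-set `A`, and the class `InK p` are defined in
`Pool/Agent/Q204/RA/Defs.lean`.

Idea of the proof. (1) `Rel(A)` is finite or has at least `2^ℵ₀` elements; so by the downward
Löwenheim–Skolem theorem no class of first-order sentences axiomatizes `K_p`. (2) This is the only
obstruction. The sentence says: the algebra is nontrivial, simple and atomic; every atom `e` below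
`1'` satisfies `e;1;e = e`, or there are exactly `p` atoms below `e;1;e` and each of them is a
bijection (`a;a˘ = e = a˘;a`); any two `e`, `e'` of the latter kind are connected by a bijection
below `e;1;e'`; and `e;1;e'` is an atom when `e` is of the former kind. If these hold, fix such an
`e`, of the latter kind if there is one. The atoms below `e;1;e` form a group of order `1` or `p`
which acts by composition on the set of atoms below `e;1`, and labelling the pair `(a,b)` by the
atom `a˘;b` represents the algebra, if complete, as the algebra of all compatible relations.
-/

namespace Pool.Agent.Results.MP_86f508_lc.FirstOrderCharacterization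

open Q204.RA FirstOrder Language

universe u

/-- For every prime `p`: the class `K_p` is not first-order axiomatizable among relation algebras;
but there is a single first-order sentence `σ` such that `K_p` is exactly the class of those
relation algebras which are complete (every set of elements has a supremum) and satisfy `σ`. -/
theorem result (p : ℕ) [Fact p.Prime] :
    (¬ ∃ T : LRA.Theory, ∀ (B : Type u) [RelAlg B], InK p B ↔ B ⊨ T) ∧
    ∃ σ : LRA.Sentence, ∀ (B : Type u) [RelAlg B],
      InK p B ↔ ((∀ S : Set B, ∃ x, IsLUB S x) ∧ B ⊨ σ) := by
  refine ⟨not_axiomatizable p, ?_⟩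
  obtain ⟨σ, hσ⟩ := good_sentence.{u} p
  refine ⟨σ, ?_⟩
  intro B _
  constructor
  · rintro ⟨A, hA, hact, ⟨e⟩⟩
    constructor
    · intro S
      have hle : ∀ x y : B, x ≤ y ↔ e x ≤ e y := by
        intro x y
        rw [← sup_eq_right, ← sup_eq_right]
        have h1 : e (x ⊔ y) = e x ⊔ e y := e.map_fun (Op.join : LRA.Functions 2) ![x, y]
        rw [← h1]
        exact e.injective.eq_iff.symm
      obtain ⟨z, hz⟩ := rel_complete (G := Multiplicative (ZMod p)) (A := A) (e '' S)
      refine ⟨e.symm z, ?_, ?_⟩
      · intro x hx
        rw [hle, e.apply_symm_apply]
        exact hz.1 ⟨x, hx, rfl⟩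
      · intro y hy
        rw [hle, e.apply_symm_apply]
        apply hz.2
        rintro _ ⟨x, hx, rfl⟩
        exact (hle x y).mp (hy hx)
    · have h1 : Good p (Q204.RA.Rel (Multiplicative (ZMod p)) A) := rel_good (by simp)
      exact (StrongHomClass.realize_sentence e σ).mpr ((hσ _).mpr h1)
  · rintro ⟨h1, h2⟩
    exact good_rep ((hσ B).mp h2) h1

end Pool.Agent.Results.MP_86f508_lc.FirstOrderCharacterization
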